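import Mathlib

/-!
# Project LD2, block D2: dimension of nested families with windows of different lengths
-/

set_option autoImplicit false

namespace Pool.Agent.Helper89.LD2

open Set MeasureTheory Filter Topology

/-- increasing enumeration of a finite set of natural numbers -/
theorem exists_enum (S : Finset ℕ) {g : ℕ} (hg : g ≤ S.card) :
    ∃ e : ℕ → ℕ, (∀ i, i < g → e i ∈ S) ∧ ∀ i j, i < j → j < g → e i < e j := by
  classical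
  refine ⟨fun i => if h : i < S.card then S.orderEmbOfFin rfl ⟨i, h⟩ else 0, fun i hi => ?_, fun i j hij hj => ?_⟩
  · have h : i < S.card := by omega
    simp only [h, dif_pos]
    exact Finset.orderEmbOfFin_mem _ _ _
  · have h : i < S.card := by omega
    have h' : j < S.card := by omega
    simp only [h, h', dif_pos]
    exact (S.orderEmbOfFin rfl).strictMono (by simpa using hij)

theorem enum_diff {e : ℕ → ℕ} {g : ℕ} (he : ∀ i j, i < j → j < g → e i < e j) {i j : ℕ} (hij : i ≤ j) (hj : j < g) :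
    e i + (j - i) ≤ e j := by
  induction j, hij using Nat.le_induction with
  | base => omega
  | succ n hn ih =>
    have h1 := ih (by omega)
    have h2 := he n (n + 1) (by omega) hj
    omega

/-- a window with its mass -/
structure St where
  a : ℝ
  ℓ : ℝ
  c : ℝ
  m : ℝ

/-- index of the child -/
noncomputable def ri (g : ℕ) (s : St) (w : ℝ) : ℕ := ⌊(w - s.c) / (s.m / g)⌋₊

/-- the child -/
noncomputable def nxt (B g : ℕ) (e : ℕ → ℕ) (s : St) (w : ℝ) : St where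
  a := s.a + e (ri g s w) * (s.ℓ / B)
  ℓ := s.ℓ / B
  c := s.c + ri g s w * (s.m / g)
  m := s.m / g

/-- the windows of a quantile -/
noncomputable def seq (B : ℕ → ℝ → ℝ → ℕ) (g : ℕ → ℝ → ℝ → ℕ) (e : ℕ → ℝ → ℝ → ℕ → ℕ) (s₀ : St) (w : ℝ) : ℕ → St
  | 0 => s₀
  | k + 1 => nxt (B k (seq B g e s₀ w k).a (seq B g e s₀ w k).ℓ) (g k (seq B g e s₀ w k).a (seq B g e s₀ w k).ℓ)
      (e k (seq B g e s₀ w k).a (seq B g e s₀ w k).ℓ) (seq B g e s₀ w k) w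

/-- data of one step at a good window -/
structure Ok (B g : ℕ) (e : ℕ → ℕ) (p : ℝ) : Prop where
  hB : 1 ≤ B
  hg : 1 ≤ g
  hp : 0 < p
  hpg : p * B ≤ g
  lt : ∀ i, i < g → e i < B
  mono : ∀ i j, i < j → j < g → e i < e j

/-- the invariant -/
structure Inv (s : St) (w q : ℝ) : Prop where
  pos : 0 < s.ℓ
  mpos : 0 < s.m
  le : s.c ≤ w
  lt : w < s.c + s.m
  mass : s.m ≤ q * s.ℓ

theorem ri_lt {B g : ℕ} {e : ℕ → ℕ} {p : ℝ} (h : Ok B g e p) {s : St} {w q : ℝ} (hI : Inv s w q) : ri g s w < g := by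
  have hg : (0 : ℝ) < g := by exact_mod_cast h.hg
  have hm : 0 < s.m / g := div_pos hI.mpos hg
  unfold ri
  rw [Nat.floor_lt (div_nonneg (by linarith [hI.le]) hm.le), div_lt_iff₀ hm, mul_div_cancel₀ _ hg.ne']
  linarith [hI.lt]

theorem Inv.nxt {B g : ℕ} {e : ℕ → ℕ} {p : ℝ} (h : Ok B g e p) {s : St} {w q : ℝ} (hq : 0 ≤ q) (hI : Inv s w q) :
    Inv (nxt B g e s w) w (q * p⁻¹) := by
  have hg : (0 : ℝ) < g := by exact_mod_cast h.hg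
  have hB : (0 : ℝ) < B := by exact_mod_cast h.hB
  have hm : 0 < s.m / g := div_pos hI.mpos hg
  have h0 : 0 ≤ (w - s.c) / (s.m / g) := div_nonneg (by linarith [hI.le]) hm.le
  refine ⟨div_pos hI.pos hB, hm, ?_, ?_, ?_⟩
  · have h1 := Nat.floor_le h0
    rw [le_div_iff₀ hm] at h1
    show s.c + (⌊(w - s.c) / (s.m / g)⌋₊ : ℝ) * (s.m / g) ≤ w
    linarith
  · have h1 := Nat.lt_floor_add_one ((w - s.c) / (s.m / g))
    rw [div_lt_iff₀ hm] at h1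
    show w < s.c + (⌊(w - s.c) / (s.m / g)⌋₊ : ℝ) * (s.m / g) + s.m / g
    linarith
  · show s.m / g ≤ q * p⁻¹ * (s.ℓ / B)
    rw [div_le_iff₀ hg]
    calc s.m ≤ q * s.ℓ := hI.mass
      _ = q * p⁻¹ * (s.ℓ / B) * (p * B) := by
          have := h.hp.ne'
          field_simp
      _ ≤ q * p⁻¹ * (s.ℓ / B) * g := by
          refine mul_le_mul_of_nonneg_left h.hpg ?_
          have := h.hp
          have := hI.pos
          positivity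

theorem nxt_nest {B g : ℕ} {e : ℕ → ℕ} {p : ℝ} (h : Ok B g e p) {s : St} {w q : ℝ} (hI : Inv s w q) :
    s.a ≤ (nxt B g e s w).a ∧ (nxt B g e s w).a + (nxt B g e s w).ℓ ≤ s.a + s.ℓ := by
  have hB : (0 : ℝ) < B := by exact_mod_cast h.hB
  have h1 : ((e (ri g s w) : ℕ) : ℝ) + 1 ≤ B := by exact_mod_cast h.lt _ (ri_lt h hI)
  have h2 : 0 < s.ℓ / B := div_pos hI.pos hB
  constructor
  · show s.a ≤ s.a + (e (ri g s w) : ℝ) * (s.ℓ / B)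
    have : (0 : ℝ) ≤ (e (ri g s w) : ℝ) * (s.ℓ / B) := by positivity
    linarith
  · show s.a + (e (ri g s w) : ℝ) * (s.ℓ / B) + s.ℓ / B ≤ s.a + s.ℓ
    have h3 := mul_le_mul_of_nonneg_right h1 h2.le
    rw [mul_div_cancel₀ _ hB.ne'] at h3
    linarith

/-- the comparison of two quantiles -/
def Cmp (s t : St) (q : ℝ) : Prop :=
  s = t ∨ (s.c + s.m ≤ t.c ∧ s.a + s.ℓ ≤ t.a ∧ t.c - (s.c + s.m) ≤ q * (t.a - (s.a + s.ℓ)))

theorem Cmp.step {B₁ g₁ B₂ g₂ : ℕ} {e₁ e₂ : ℕ → ℕ} {p : ℝ} (h₁ : Ok B₁ g₁ e₁ p) (h₂ : Ok B₂ g₂ e₂ p) {s t : St}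
    {w₁ w₂ q : ℝ} (hq : 0 ≤ q) (hp1 : p ≤ 1) (I₁ : Inv s w₁ q) (I₂ : Inv t w₂ q) (hw : w₁ ≤ w₂)
    (heq : s = t → B₁ = B₂ ∧ g₁ = g₂ ∧ e₁ = e₂) (h : Cmp s t q) :
    Cmp (nxt B₁ g₁ e₁ s w₁) (nxt B₂ g₂ e₂ t w₂) (q * p⁻¹) := by
  have hg₁ : (0 : ℝ) < g₁ := by exact_mod_cast h₁.hg
  have hB₁ : (0 : ℝ) < B₁ := by exact_mod_cast h₁.hB
  have hg₂ : (0 : ℝ) < g₂ := by exact_mod_cast h₂.hg
  have hB₂ : (0 : ℝ) < B₂ := by exact_mod_cast h₂.hB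
  have J₁ := I₁.nxt h₁ hq
  have J₂ := I₂.nxt h₂ hq
  have hr₁ := ri_lt h₁ I₁
  have hr₂ := ri_lt h₂ I₂
  have hp := h₁.hp
  have hqp : 0 ≤ q * p⁻¹ := by positivity
  have hqq : q ≤ q * p⁻¹ := le_mul_of_one_le_right hq ((one_le_inv₀ hp).2 hp1)
  rcases h with h | ⟨hc, ha, hd⟩
  · obtain ⟨rfl, rfl, rfl⟩ := heq h
    subst h
    have hm : 0 < s.m / g₁ := J₁.mpos
    have hl : 0 < s.ℓ / B₁ := J₁.pos
    have hri : ri g₁ s w₁ ≤ ri g₁ s w₂ := by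
      unfold ri
      exact Nat.floor_mono (div_le_div_of_nonneg_right (by linarith) hm.le)
    rcases hri.eq_or_lt with hr | hr
    · left
      unfold nxt
      rw [hr]
    · right
      set r₁ := ri g₁ s w₁ with hr₁d
      set r₂ := ri g₁ s w₂ with hr₂d
      have h3 : (r₁ : ℝ) + 1 ≤ r₂ := by exact_mod_cast hr
      have h4 : (e₁ r₁ : ℝ) + ((r₂ : ℝ) - r₁) ≤ e₁ r₂ := by
        have h5 := enum_diff h₁.mono hr.le hr₂
        have h6 : ((e₁ r₁ + (r₂ - r₁) : ℕ) : ℝ) ≤ e₁ r₂ := by exact_mod_cast h5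
        rw [Nat.cast_add, Nat.cast_sub hr.le] at h6
        exact h6
      refine ⟨?_, ?_, ?_⟩
      · show s.c + (r₁ : ℝ) * (s.m / g₁) + s.m / g₁ ≤ s.c + (r₂ : ℝ) * (s.m / g₁)
        nlinarith
      · show s.a + (e₁ r₁ : ℝ) * (s.ℓ / B₁) + s.ℓ / B₁ ≤ s.a + (e₁ r₂ : ℝ) * (s.ℓ / B₁)
        nlinarith
      · show s.c + (r₂ : ℝ) * (s.m / g₁) - (s.c + (r₁ : ℝ) * (s.m / g₁) + s.m / g₁) ≤
          q * p⁻¹ * (s.a + (e₁ r₂ : ℝ) * (s.ℓ / B₁) - (s.a + (e₁ r₁ : ℝ) * (s.ℓ / B₁) + s.ℓ / B₁))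
        have h5 : s.m / g₁ ≤ q * p⁻¹ * (s.ℓ / B₁) := J₁.mass
        have h6 : s.c + (r₂ : ℝ) * (s.m / g₁) - (s.c + (r₁ : ℝ) * (s.m / g₁) + s.m / g₁) = ((r₂ : ℝ) - r₁ - 1) * (s.m / g₁) := by ring
        have h7 : q * p⁻¹ * (s.a + (e₁ r₂ : ℝ) * (s.ℓ / B₁) - (s.a + (e₁ r₁ : ℝ) * (s.ℓ / B₁) + s.ℓ / B₁)) =
            ((e₁ r₂ : ℝ) - e₁ r₁ - 1) * (q * p⁻¹ * (s.ℓ / B₁)) := by ring
        rw [h6, h7]
        have h8 : 0 ≤ q * p⁻¹ * (s.ℓ / B₁) := by positivity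
        calc ((r₂ : ℝ) - r₁ - 1) * (s.m / g₁) ≤ ((r₂ : ℝ) - r₁ - 1) * (q * p⁻¹ * (s.ℓ / B₁)) :=
              mul_le_mul_of_nonneg_left h5 (by linarith)
          _ ≤ _ := mul_le_mul_of_nonneg_right (by linarith) h8
  · right
    have hm₁ : 0 < s.m / g₁ := J₁.mpos
    have hl₁ : 0 < s.ℓ / B₁ := J₁.pos
    have hm₂ : 0 < t.m / g₂ := J₂.mpos
    have hl₂ : 0 < t.ℓ / B₂ := J₂.pos
    set r₁ := ri g₁ s w₁ with hr₁d
    set r₂ := ri g₂ t w₂ with hr₂d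
    have k1 : (r₁ : ℝ) + 1 ≤ g₁ := by exact_mod_cast hr₁
    have k2 : (e₁ r₁ : ℝ) + (g₁ - r₁) ≤ B₁ := by
      have h5 := enum_diff h₁.mono (show r₁ ≤ g₁ - 1 by omega) (show g₁ - 1 < g₁ by omega)
      have h6 := h₁.lt (g₁ - 1) (by omega)
      have h7 : e₁ r₁ + (g₁ - r₁) ≤ B₁ := by omega
      have h8 : ((e₁ r₁ + (g₁ - r₁) : ℕ) : ℝ) ≤ B₁ := by exact_mod_cast h7
      rw [Nat.cast_add, Nat.cast_sub hr₁.le] at h8
      exact h8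
    have k3 : (r₂ : ℝ) ≤ e₂ r₂ := by
      have h5 := enum_diff h₂.mono (Nat.zero_le r₂) hr₂
      have h6 : r₂ ≤ e₂ r₂ := by omega
      exact_mod_cast h6
    have e1 : (g₁ : ℝ) * (s.m / g₁) = s.m := mul_div_cancel₀ _ hg₁.ne'
    have e2 : (B₁ : ℝ) * (s.ℓ / B₁) = s.ℓ := mul_div_cancel₀ _ hB₁.ne'
    have h5 : s.m / g₁ ≤ q * p⁻¹ * (s.ℓ / B₁) := J₁.mass
    have h6 : t.m / g₂ ≤ q * p⁻¹ * (t.ℓ / B₂) := J₂.mass
    have n1 : 0 ≤ (r₂ : ℝ) * (t.m / g₂) := by positivity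
    have n2 : 0 ≤ (e₂ r₂ : ℝ) * (t.ℓ / B₂) := by positivity
    have n3 : ((r₁ : ℝ) + 1) * (s.m / g₁) ≤ s.m := by
      have := mul_le_mul_of_nonneg_right k1 hm₁.le
      rw [e1] at this
      exact this
    have n4 : ((e₁ r₁ : ℝ) + 1) * (s.ℓ / B₁) ≤ s.ℓ := by
      have := mul_le_mul_of_nonneg_right (show (e₁ r₁ : ℝ) + 1 ≤ B₁ by linarith) hl₁.le
      rw [e2] at this
      exact this
    refine ⟨?_, ?_, ?_⟩
    · show s.c + (r₁ : ℝ) * (s.m / g₁) + s.m / g₁ ≤ t.c + (r₂ : ℝ) * (t.m / g₂)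
      linarith
    · show s.a + (e₁ r₁ : ℝ) * (s.ℓ / B₁) + s.ℓ / B₁ ≤ t.a + (e₂ r₂ : ℝ) * (t.ℓ / B₂)
      linarith
    · show t.c + (r₂ : ℝ) * (t.m / g₂) - (s.c + (r₁ : ℝ) * (s.m / g₁) + s.m / g₁) ≤
          q * p⁻¹ * (t.a + (e₂ r₂ : ℝ) * (t.ℓ / B₂) - (s.a + (e₁ r₁ : ℝ) * (s.ℓ / B₁) + s.ℓ / B₁))
      have p1 : (r₂ : ℝ) * (t.m / g₂) ≤ q * p⁻¹ * ((e₂ r₂ : ℝ) * (t.ℓ / B₂)) := by
        calc (r₂ : ℝ) * (t.m / g₂) ≤ e₂ r₂ * (t.m / g₂) := mul_le_mul_of_nonneg_right k3 hm₂.le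
          _ ≤ e₂ r₂ * (q * p⁻¹ * (t.ℓ / B₂)) := mul_le_mul_of_nonneg_left h6 (Nat.cast_nonneg _)
          _ = _ := by ring
      have p2 : s.m - ((r₁ : ℝ) + 1) * (s.m / g₁) ≤ q * p⁻¹ * (s.ℓ - ((e₁ r₁ : ℝ) + 1) * (s.ℓ / B₁)) := by
        have q1 : s.m - ((r₁ : ℝ) + 1) * (s.m / g₁) = ((g₁ : ℝ) - r₁ - 1) * (s.m / g₁) := by
          have : (g₁ : ℝ) * (s.m / g₁) - ((r₁ : ℝ) + 1) * (s.m / g₁) = ((g₁ : ℝ) - r₁ - 1) * (s.m / g₁) := by ring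
          rw [← this, e1]
        have q2 : s.ℓ - ((e₁ r₁ : ℝ) + 1) * (s.ℓ / B₁) = ((B₁ : ℝ) - e₁ r₁ - 1) * (s.ℓ / B₁) := by
          have : (B₁ : ℝ) * (s.ℓ / B₁) - ((e₁ r₁ : ℝ) + 1) * (s.ℓ / B₁) = ((B₁ : ℝ) - e₁ r₁ - 1) * (s.ℓ / B₁) := by ring
          rw [← this, e2]
        rw [q1, q2]
        have q3 : 0 ≤ q * p⁻¹ * (s.ℓ / B₁) := by positivity
        calc ((g₁ : ℝ) - r₁ - 1) * (s.m / g₁) ≤ ((g₁ : ℝ) - r₁ - 1) * (q * p⁻¹ * (s.ℓ / B₁)) :=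
              mul_le_mul_of_nonneg_left h5 (by linarith)
          _ ≤ ((B₁ : ℝ) - e₁ r₁ - 1) * (q * p⁻¹ * (s.ℓ / B₁)) := mul_le_mul_of_nonneg_right (by linarith) q3
          _ = _ := by ring
      have p3 : t.c - (s.c + s.m) ≤ q * p⁻¹ * (t.a - (s.a + s.ℓ)) :=
        hd.trans (mul_le_mul_of_nonneg_right hqq (by linarith))
      have p4 : q * p⁻¹ * (t.a + (e₂ r₂ : ℝ) * (t.ℓ / B₂) - (s.a + (e₁ r₁ : ℝ) * (s.ℓ / B₁) + s.ℓ / B₁)) =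
          q * p⁻¹ * ((e₂ r₂ : ℝ) * (t.ℓ / B₂)) + q * p⁻¹ * (s.ℓ - ((e₁ r₁ : ℝ) + 1) * (s.ℓ / B₁)) +
            q * p⁻¹ * (t.a - (s.a + s.ℓ)) := by ring
      rw [p4]
      have p5 : t.c + (r₂ : ℝ) * (t.m / g₂) - (s.c + (r₁ : ℝ) * (s.m / g₁) + s.m / g₁) =
          (r₂ : ℝ) * (t.m / g₂) + (s.m - ((r₁ : ℝ) + 1) * (s.m / g₁)) + (t.c - (s.c + s.m)) := by ring
      rw [p5]
      linarith

/-- the Hoelder argument -/
theorem dim_of_hold {X : ℝ → ℝ} {D s : ℝ} (hs : 0 < s) (hD : 0 < D) (E : Set ℝ) (hE : ∀ w, 0 ≤ w → w < 1 → X w ∈ E)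
    (h : ∀ w₁ w₂, 0 ≤ w₁ → w₁ < w₂ → w₂ < 1 → ∀ ρ, 0 < ρ → X w₂ - X w₁ ≤ ρ → w₂ - w₁ ≤ D * ρ ^ s) :
    ENNReal.ofReal s ≤ dimH E := by
  have hlt : ∀ w₁ w₂, 0 ≤ w₁ → w₁ < w₂ → w₂ < 1 → X w₁ < X w₂ := by
    intro w₁ w₂ h1 h2 h3
    by_contra hc
    have hd : 0 < (w₂ - w₁) / (2 * D) := div_pos (by linarith) (by positivity)
    have h4 := h w₁ w₂ h1 h2 h3 (((w₂ - w₁) / (2 * D)) ^ s⁻¹) (Real.rpow_pos_of_pos hd _)
      (by have := Real.rpow_pos_of_pos hd s⁻¹; linarith)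
    rw [Real.rpow_inv_rpow hd.le hs.ne'] at h4
    have h5 : D * ((w₂ - w₁) / (2 * D)) = (w₂ - w₁) / 2 := by
      field_simp
    rw [h5] at h4
    linarith
  have hinj : InjOn X (Ico 0 1) := by
    intro u hu v hv huv
    rcases lt_trichotomy u v with h1 | h1 | h1
    · exact absurd huv (hlt u v hu.1 h1 hv.2).ne
    · exact h1
    · exact absurd huv (hlt v u hv.1 h1 hu.2).ne'
  set A : Set ℝ := X '' Ico 0 1 with hA
  set f : ℝ → ℝ := Function.invFunOn X (Ico 0 1) with hf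
  have hfX : ∀ w ∈ Ico (0 : ℝ) 1, f (X w) = w := fun w hw => hinj.leftInvOn_invFunOn hw
  have himg : f '' A = Ico 0 1 := by
    ext y
    constructor
    · rintro ⟨x, ⟨w, hw, rfl⟩, rfl⟩
      rw [hfX w hw]
      exact hw
    · intro hy
      exact ⟨X y, ⟨y, hy, rfl⟩, hfX y hy⟩
  have hhol : HolderOnWith D.toNNReal s.toNNReal f A := by
    rintro x ⟨u, hu, rfl⟩ y ⟨v, hv, rfl⟩
    rw [hfX u hu, hfX v hv]
    have key : ∀ u v : ℝ, 0 ≤ u → u < v → v < 1 → |u - v| ≤ D * |X u - X v| ^ s := by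
      intro u v h1 h2 h3
      have h4 := hlt u v h1 h2 h3
      have h5 := h u v h1 h2 h3 (X v - X u) (by linarith) le_rfl
      rwa [abs_sub_comm, abs_of_pos (by linarith : 0 < v - u), abs_sub_comm, abs_of_pos (by linarith : 0 < X v - X u)]
    have key2 : |u - v| ≤ D * |X u - X v| ^ s := by
      rcases lt_trichotomy u v with h1 | h1 | h1
      · exact key u v hu.1 h1 hv.2
      · subst h1
        rw [sub_self, sub_self, abs_zero, Real.zero_rpow hs.ne', mul_zero]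
      · rw [abs_sub_comm, abs_sub_comm (X u)]
        exact key v u hv.1 h1 hu.2
    rw [edist_dist, edist_dist, Real.dist_eq, Real.dist_eq, Real.coe_toNNReal s hs.le,
      ENNReal.ofReal_rpow_of_nonneg (abs_nonneg _) hs.le]
    have h6 : ((D.toNNReal : NNReal) : ENNReal) = ENNReal.ofReal D := rfl
    rw [h6, ← ENNReal.ofReal_mul hD.le]
    exact ENNReal.ofReal_le_ofReal key2
  have h1 := hhol.dimH_image_le (Real.toNNReal_pos.2 hs)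
  rw [himg] at h1
  have h2 : dimH (Ico (0 : ℝ) 1) = 1 := by
    have := Real.dimH_of_nonempty_interior (E := ℝ) (s := Ico (0 : ℝ) 1) (by rw [interior_Ico]; exact ⟨1 / 2, by norm_num, by norm_num⟩)
    simpa using this
  rw [h2] at h1
  have h3 : ((s.toNNReal : NNReal) : ENNReal) = ENNReal.ofReal s := rfl
  rw [h3] at h1
  have h4 : ENNReal.ofReal s ≤ dimH A := by
    have h5 : ENNReal.ofReal s ≠ 0 := by
      rw [Ne, ENNReal.ofReal_eq_zero, not_le]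
      exact hs
    have h6 := ENNReal.mul_le_of_le_div h1
    rwa [one_mul] at h6
  refine h4.trans (dimH_mono ?_)
  rintro x ⟨w, hw, rfl⟩
  exact hE w hw.1 hw.2

open Classical in
theorem dim_var (B : ℕ → ℝ → ℝ → ℕ) (sz p : ℕ → ℝ) (Good : ℕ → ℝ → ℝ → Prop) (a₀ ℓ₀ : ℝ) (h0 : Good 0 a₀ ℓ₀)
    (hpos : ∀ k a ℓ, Good k a ℓ → 0 < ℓ ∧ ℓ ≤ sz k) (hB : ∀ k a ℓ, Good k a ℓ → 1 ≤ B k a ℓ)
    (hszt : Tendsto sz atTop (𝓝 0)) (hp : ∀ k, 0 < p k) (hp1 : ∀ k, p k ≤ 1)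
    (hstep : ∀ k a ℓ, Good k a ℓ → p k * B k a ℓ ≤
      (((Finset.range (B k a ℓ)).filter fun b : ℕ => Good (k + 1) (a + b * (ℓ / B k a ℓ)) (ℓ / B k a ℓ)).card : ℝ))
    {s : ℝ} (hs : 0 < s) (hs1 : s < 1) (hC : ∃ C : ℝ, ∀ k, (∏ j ∈ Finset.range (k + 1), (p j)⁻¹) * sz k ^ (1 - s) ≤ C) :
    ENNReal.ofReal s ≤ dimH {x | x ∈ Icc a₀ (a₀ + ℓ₀) ∧ ∀ k, ∃ a ℓ, Good k a ℓ ∧ x ∈ Icc a (a + ℓ)} := by
  have hℓ₀ : 0 < ℓ₀ := (hpos 0 a₀ ℓ₀ h0).1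
  have hch : ∀ k a ℓ, ∃ (g : ℕ) (e : ℕ → ℕ), Good k a ℓ → Ok (B k a ℓ) g e (p k) ∧
      ∀ i, i < g → Good (k + 1) (a + e i * (ℓ / B k a ℓ)) (ℓ / B k a ℓ) := by
    intro k a ℓ
    by_cases hG : Good k a ℓ
    · set S := (Finset.range (B k a ℓ)).filter fun b : ℕ => Good (k + 1) (a + b * (ℓ / B k a ℓ)) (ℓ / B k a ℓ) with hS
      obtain ⟨e, he1, he2⟩ := exists_enum S le_rfl
      refine ⟨S.card, e, fun _ => ⟨⟨hB k a ℓ hG, ?_, hp k, hstep k a ℓ hG, ?_, he2⟩, ?_⟩⟩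
      · have h1 := hstep k a ℓ hG
        have h2 : (1 : ℝ) ≤ B k a ℓ := by exact_mod_cast hB k a ℓ hG
        have h3 : 0 < p k * B k a ℓ := mul_pos (hp k) (by linarith)
        have h4 : (0 : ℝ) < S.card := h3.trans_le h1
        exact_mod_cast h4
      · intro i hi
        have := he1 i hi
        rw [hS, Finset.mem_filter, Finset.mem_range] at this
        exact this.1
      · intro i hi
        have := he1 i hi
        rw [hS, Finset.mem_filter, Finset.mem_range] at this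
        exact this.2
    · exact ⟨0, fun _ => 0, fun h => absurd h hG⟩
  choose g e hge using hch
  set s₀ : St := ⟨a₀, ℓ₀, 0, 1⟩ with hs₀
  set Q : ℕ → ℝ := fun k => (∏ j ∈ Finset.range k, (p j)⁻¹) / ℓ₀ with hQdef
  have hQ0 : Q 0 = ℓ₀⁻¹ := by
    simp [hQdef]
  have hQs : ∀ k, Q (k + 1) = Q k * (p k)⁻¹ := by
    intro k
    simp only [hQdef]
    rw [Finset.prod_range_succ]
    ring
  have hQ : ∀ k, 0 ≤ Q k := fun k => div_nonneg (Finset.prod_nonneg fun j _ => (inv_pos.2 (hp j)).le) hℓ₀.le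
  have inv : ∀ w, 0 ≤ w → w < 1 → ∀ k, Good k (seq B g e s₀ w k).a (seq B g e s₀ w k).ℓ ∧ Inv (seq B g e s₀ w k) w (Q k) := by
    intro w hw0 hw1 k
    induction k with
    | zero =>
      refine ⟨h0, hℓ₀, one_pos, hw0, ?_, ?_⟩
      · show w < 0 + 1
        linarith
      · show (1 : ℝ) ≤ Q 0 * ℓ₀
        rw [hQ0, inv_mul_cancel₀ hℓ₀.ne']
    | succ k ih =>
      obtain ⟨hG, hI⟩ := ih
      obtain ⟨h1, h2⟩ := hge k _ _ hG
      refine ⟨h2 _ (ri_lt h1 hI), ?_⟩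
      rw [hQs]
      exact hI.nxt h1 (hQ k)
  have cmp : ∀ w₁ w₂, 0 ≤ w₁ → w₁ ≤ w₂ → w₂ < 1 → ∀ k, Cmp (seq B g e s₀ w₁ k) (seq B g e s₀ w₂ k) (Q k) := by
    intro w₁ w₂ h1 h2 h3 k
    induction k with
    | zero => exact Or.inl rfl
    | succ k ih =>
      obtain ⟨hG₁, hI₁⟩ := inv w₁ h1 (by linarith) k
      obtain ⟨hG₂, hI₂⟩ := inv w₂ (by linarith) h3 k
      rw [hQs]
      exact Cmp.step (hge k _ _ hG₁).1 (hge k _ _ hG₂).1 (hQ k) (hp1 k) hI₁ hI₂ h2 (fun h => by rw [h]; exact ⟨rfl, rfl, rfl⟩) ih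
  -- the points
  have nest : ∀ w, 0 ≤ w → w < 1 → ∀ k n, (seq B g e s₀ w k).a ≤ (seq B g e s₀ w (k + n)).a ∧
      (seq B g e s₀ w (k + n)).a + (seq B g e s₀ w (k + n)).ℓ ≤ (seq B g e s₀ w k).a + (seq B g e s₀ w k).ℓ := by
    intro w hw0 hw1 k n
    induction n with
    | zero => exact ⟨le_rfl, le_rfl⟩
    | succ n ih =>
      obtain ⟨hG, hI⟩ := inv w hw0 hw1 (k + n)
      have h1 := nxt_nest (hge (k + n) _ _ hG).1 hI
      exact ⟨ih.1.trans h1.1, h1.2.trans ih.2⟩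
  have bnd : ∀ w, 0 ≤ w → w < 1 → ∀ j k, (seq B g e s₀ w j).a ≤ (seq B g e s₀ w k).a + (seq B g e s₀ w k).ℓ := by
    intro w hw0 hw1 j k
    have h1 := nest w hw0 hw1 j k
    have h2 := nest w hw0 hw1 k j
    rw [add_comm k j] at h2
    have h3 := (inv w hw0 hw1 (j + k)).2.pos
    linarith [h1.1, h2.2]
  set X : ℝ → ℝ := fun w => ⨆ k, (seq B g e s₀ w k).a with hX
  have hX1 : ∀ w, 0 ≤ w → w < 1 → ∀ k, (seq B g e s₀ w k).a ≤ X w := fun w hw0 hw1 k =>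
    le_ciSup (f := fun k => (seq B g e s₀ w k).a) ⟨_, by rintro _ ⟨j, rfl⟩; exact bnd w hw0 hw1 j 0⟩ k
  have hX2 : ∀ w, 0 ≤ w → w < 1 → ∀ k, X w ≤ (seq B g e s₀ w k).a + (seq B g e s₀ w k).ℓ := fun w hw0 hw1 k =>
    ciSup_le fun j => bnd w hw0 hw1 j k
  obtain ⟨C, hC⟩ := hC
  have hC0 : 0 ≤ C := by
    refine le_trans ?_ (hC 0)
    exact mul_nonneg (Finset.prod_nonneg fun j _ => (inv_pos.2 (hp j)).le)
      (Real.rpow_nonneg ((hpos 0 a₀ ℓ₀ h0).1.le.trans (hpos 0 a₀ ℓ₀ h0).2) _)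
  set D : ℝ := max (3 * C / ℓ₀) (ℓ₀⁻¹ ^ s) with hD
  have hD0 : 0 < D := lt_max_of_lt_right (Real.rpow_pos_of_pos (inv_pos.2 hℓ₀) _)
  have hmain : ∀ w₁ w₂, 0 ≤ w₁ → w₁ < w₂ → w₂ < 1 → ∀ k, w₂ - w₁ ≤
      Q k * ((X w₂ - X w₁) + (seq B g e s₀ w₁ k).ℓ + (seq B g e s₀ w₂ k).ℓ) := by
    intro w₁ w₂ h1 h2 h3 k
    have I₁ := (inv w₁ h1 (by linarith) k).2
    have I₂ := (inv w₂ (by linarith) h3 k).2
    have x1 := hX2 w₁ h1 (by linarith) k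
    have x2 := hX1 w₂ (by linarith) h3 k
    have i1 := I₁.le
    have i2 := I₂.lt
    have m1 := I₁.mass
    have m2 := I₂.mass
    have p1 := I₁.pos
    have p2 := I₂.pos
    rcases cmp w₁ w₂ h1 h2.le h3 k with h | ⟨_, _, h⟩
    · rw [← h] at i2 x2 p2 ⊢
      calc w₂ - w₁ ≤ (seq B g e s₀ w₁ k).m := by linarith
        _ ≤ Q k * (seq B g e s₀ w₁ k).ℓ := m1
        _ ≤ _ := mul_le_mul_of_nonneg_left (by linarith) (hQ k)
    · have h4 := mul_le_mul_of_nonneg_left (show (seq B g e s₀ w₂ k).a - ((seq B g e s₀ w₁ k).a + (seq B g e s₀ w₁ k).ℓ) ≤ X w₂ - X w₁ by linarith) (hQ k)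
      calc w₂ - w₁ ≤ ((seq B g e s₀ w₂ k).c - ((seq B g e s₀ w₁ k).c + (seq B g e s₀ w₁ k).m)) +
            (seq B g e s₀ w₁ k).m + (seq B g e s₀ w₂ k).m := by linarith
        _ ≤ Q k * (X w₂ - X w₁) + Q k * (seq B g e s₀ w₁ k).ℓ + Q k * (seq B g e s₀ w₂ k).ℓ := by linarith
        _ = _ := by ring
  refine dim_of_hold (X := X) hs hD0 _ (fun w hw0 hw1 => ?_) fun w₁ w₂ h1 h2 h3 ρ hρ hXρ => ?_
  · refine ⟨⟨hX1 w hw0 hw1 0, hX2 w hw0 hw1 0⟩, fun k => ⟨_, _, (inv w hw0 hw1 k).1, hX1 w hw0 hw1 k, hX2 w hw0 hw1 k⟩⟩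
  · rcases le_or_gt ℓ₀ ρ with hρℓ | hρℓ
    · have h4 : (1 : ℝ) ≤ ℓ₀⁻¹ ^ s * ρ ^ s := by
        rw [← Real.mul_rpow (inv_pos.2 hℓ₀).le hρ.le]
        refine Real.one_le_rpow ?_ hs.le
        rw [inv_mul_eq_div, le_div_iff₀ hℓ₀]
        linarith
      have h5 : ℓ₀⁻¹ ^ s * ρ ^ s ≤ D * ρ ^ s := mul_le_mul_of_nonneg_right (le_max_right _ _) (Real.rpow_nonneg hρ.le _)
      linarith
    · have hex : ∃ k, (seq B g e s₀ w₁ k).ℓ ≤ ρ ∧ (seq B g e s₀ w₂ k).ℓ ≤ ρ := by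
        obtain ⟨k, hk⟩ := (hszt.eventually (gt_mem_nhds hρ)).exists
        exact ⟨k, ((hpos k _ _ (inv w₁ h1 (by linarith) k).1).2.trans hk.le), ((hpos k _ _ (inv w₂ (by linarith) h3 k).1).2.trans hk.le)⟩
      classical
      have hk := Nat.find_spec hex
      have hmin := fun m => Nat.find_min hex (m := m)
      set k := Nat.find hex with hkdef
      rcases Nat.eq_zero_or_pos k with hk0 | hk0
      · rw [hk0] at hk
        exact absurd hk.1 (not_le.2 hρℓ)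
      · obtain ⟨n, hn⟩ : ∃ n, k = n + 1 := ⟨k - 1, by omega⟩
        have hnk := hmin n (by omega)
        have hsz : ρ ≤ sz n := by
          by_contra hc
          exact hnk ⟨((hpos n _ _ (inv w₁ h1 (by linarith) n).1).2.trans (not_le.1 hc).le),
            ((hpos n _ _ (inv w₂ (by linarith) h3 n).1).2.trans (not_le.1 hc).le)⟩
        have h4 := hmain w₁ w₂ h1 h2 h3 k
        have h5 : w₂ - w₁ ≤ Q k * (3 * ρ) := h4.trans (mul_le_mul_of_nonneg_left (by linarith [hk.1, hk.2]) (hQ k))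
        have h6 : Q k * ρ ^ (1 - s) ≤ C / ℓ₀ := by
          rw [hn]
          have h7 : ρ ^ (1 - s) ≤ sz n ^ (1 - s) := Real.rpow_le_rpow hρ.le hsz (by linarith)
          calc Q (n + 1) * ρ ^ (1 - s) ≤ Q (n + 1) * sz n ^ (1 - s) := mul_le_mul_of_nonneg_left h7 (hQ _)
            _ = ((∏ j ∈ Finset.range (n + 1), (p j)⁻¹) * sz n ^ (1 - s)) / ℓ₀ := by
                simp only [hQdef]
                ring
            _ ≤ C / ℓ₀ := div_le_div_of_nonneg_right (hC n) hℓ₀.le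
        have h8 : ρ = ρ ^ (1 - s) * ρ ^ s := by
          rw [← Real.rpow_add hρ, sub_add_cancel, Real.rpow_one]
        calc w₂ - w₁ ≤ Q k * (3 * ρ) := h5
          _ = 3 * (Q k * ρ ^ (1 - s)) * ρ ^ s := by
              conv_lhs => rw [h8]
              ring
          _ ≤ 3 * (C / ℓ₀) * ρ ^ s := mul_le_mul_of_nonneg_right (by linarith) (Real.rpow_nonneg hρ.le _)
          _ = 3 * C / ℓ₀ * ρ ^ s := by ring
          _ ≤ D * ρ ^ s := mul_le_mul_of_nonneg_right (le_max_left _ _) (Real.rpow_nonneg hρ.le _)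

end Pool.Agent.Helper89.LD2
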